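import Mathlib
import Pool.Agent.H300R2.BH.Defs

/-!
Exact Hardy-Littlewood constants for almost all quadratic polynomials: definitions.
-/

namespace Pool.Agent.H300R2.EC

open Finset Polynomial

/-- the sum of `(D/p)/p` over the odd primes `p` with `P < p ≤ Q` -/
noncomputable def Sd (D : ℤ) (P Q : ℕ) : ℝ :=
  ∑ p ∈ (Ioc P Q).filter (fun p : ℕ => p.Prime ∧ p ≠ 2), (jacobiSym D p : ℝ) / p

/-- the nonzero integers `D` with `|D| ≤ X` -/
noncomputable def Dset (X : ℕ) : Finset ℤ := (Icc (-(X : ℤ)) X).filter (fun D => D ≠ 0)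

open Classical in
/-- the `D` with `0 < |D| ≤ 5 H²` for which some dyadic sum beyond `z = ⌊(log H)^E⌋` is large -/
noncomputable def Exc (V E H : ℕ) : Finset ℤ :=
  (Dset (5 * H ^ 2)).filter (fun D => ∃ i : ℕ, (i : ℝ) ≤ (H : ℝ) ^ (1 / (16 * ((V : ℝ) + 1))) ∧
    1 / (Real.log H + i) ^ V <
      |Sd D (⌊Real.log H ^ E⌋₊ * 2 ^ i) (2 * (⌊Real.log H ^ E⌋₊ * 2 ^ i))|)

/-- the product of `1 - (D/p)/(p-1)` over the odd primes `p` not dividing `a` with `M < p ≤ N` -/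
noncomputable def Pd (a D : ℤ) (M N : ℕ) : ℝ :=
  ∏ p ∈ (Ioc M N).filter (fun p : ℕ => p.Prime ∧ p ≠ 2 ∧ ¬ (p : ℤ) ∣ a),
    (1 - (jacobiSym D p : ℝ) / (p - 1))

/-- the product of `p/(p-1)` over the odd primes `p` dividing `a` and `b` with `M < p ≤ N` -/
noncomputable def Pg (a b : ℤ) (M N : ℕ) : ℝ :=
  ∏ p ∈ (Ioc M N).filter (fun p : ℕ => p.Prime ∧ p ≠ 2 ∧ (p : ℤ) ∣ a ∧ (p : ℤ) ∣ b),
    ((p : ℝ) / (p - 1))

end Pool.Agent.H300R2.EC
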