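import Pool.Agent.H300R2.EC.Final2
import Pool.Agent.H455R2.EC_X1
import Pool.Agent.H455R2.EC_X11
import Pool.Agent.H52R2.EC_LargeSieve
import Pool.Agent.H379R2.EC_moment
import Pool.Agent.H201R2.EC_X4
import Pool.Agent.H201R2.EC_X6
import Pool.Agent.H364R2.EC_SwTail

/-!
The Hardy-Littlewood asymptotic formula with the exact constant for almost all quadratic
polynomials, unconditionally.
-/

namespace Pool.Agent.H300R2.EC

open Finset Polynomial Filter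

theorem hl_final (ε : ℝ) (hε : 0 < ε) : ∃ C1 : ℝ, ∀ U : ℕ, ∃ B H0 : ℕ, ∀ H : ℕ, H0 ≤ H →
    ∃ T : Finset (ℤ × ℤ × ℤ), (T.card : ℝ) ≤ (H : ℝ) ^ 3 / Real.log H ^ U ∧
    ∀ a b c : ℤ, 0 < a → a ≤ H → |b| ≤ H → |c| ≤ H → (a, b, c) ∉ T →
    Int.gcd (Int.gcd a b) c = 1 → ¬ (Even (a + b) ∧ Even c) →
    ∃ C : ℝ, 0 < C ∧
    Tendsto (fun N : ℕ => ∏ p ∈ (range N).filter (fun p : ℕ => Nat.Prime p ∧ 2 < p ∧ ¬ ((p : ℤ) ∣ a)),
      (1 - ((jacobiSym (b ^ 2 - 4 * a * c) p : ℤ) : ℝ) / ((p : ℝ) - 1))) atTop (nhds C) ∧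
    ∀ x : ℝ, (H : ℝ) ^ (1 + ε) ≤ x → x * Real.log H ^ B ≤ (H : ℝ) ^ 3 →
    |piF a b c x - mainTerm a b C x| ≤ C1 / Real.log H * mainTerm a b C x :=
  hl_exact
    (Pool.Agent.H201R2.EC_X6.good_D
      (Pool.Agent.H201R2.EC_X4.exc_total
        (Pool.Agent.H379R2.EC.moment
          (Pool.Agent.H52R2.EC.large_sieve Pool.Agent.H455R2.EC.jac_sum)))
      Pool.Agent.H364R2.EC.sw_tail)
    (Pool.Agent.H715R2.EC.conv_prod Pool.Agent.H364R2.EC.sw_tail)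
    (fun ε hε => Pool.Agent.H455R2.EC.count_form ε hε)
    (fun ε hε => Pool.Agent.H300R2.EC.triples ε hε) ε hε

end Pool.Agent.H300R2.EC
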