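import Pool.Agent.H300R2.FB.Full3
import Pool.Agent.H300R2.EC.Defs
import Pool.Agent.H75R2.EC_TailProd
import Pool.Agent.H18R2.EC_SSQuad

/-!
Comparison of the truncated Euler product with the Hardy-Littlewood constant.
-/

namespace Pool.Agent.H300R2.EC

open Finset Polynomial Filter
open Pool.Agent.H300R2.BH

/-- final combination of the error terms -/
lemma combine (P A A' S M0 L C0 : ℝ) (hL : 8 ≤ L) (hC0L : C0 ≤ L) (hA' : 0 ≤ A')
    (hM0 : 0 ≤ M0) (hS0 : 0 ≤ S) (h1 : |P - A * S| ≤ A * S / L ^ 2)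
    (h2 : |S - M0| ≤ C0 / L * M0) (h3 : |A - A'| ≤ 8 / L * A') :
    |P - A' * M0| ≤ (C0 + 20) / L * (A' * M0) := by
  have hL0 : 0 < L := by linarith
  have hA2 : A ≤ 2 * A' := by
    have h4 := (abs_le.mp h3).2
    have h5 : 8 / L * A' ≤ 1 * A' := by
      gcongr
      rw [div_le_one hL0]; exact hL
    linarith
  have hS2 : S ≤ 2 * M0 := by
    have h4 := (abs_le.mp h2).2
    have h5 : C0 / L * M0 ≤ 1 * M0 := by
      gcongr
      rw [div_le_one hL0]; exact hC0L
    linarith
  have hAM : 0 ≤ A' * M0 := mul_nonneg hA' hM0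
  have e1 : P - A' * M0 = (P - A * S) + ((A - A') * S + A' * (S - M0)) := by ring
  rw [e1]
  refine (abs_add_le _ _).trans ?_
  have h6 := abs_add_le ((A - A') * S) (A' * (S - M0))
  have h7 : |(A - A') * S| ≤ (8 / L * A') * (2 * M0) := by
    rw [abs_mul, abs_of_nonneg hS0]
    exact mul_le_mul h3 hS2 hS0 (by positivity)
  have h8 : |A' * (S - M0)| ≤ A' * (C0 / L * M0) := by
    rw [abs_mul, abs_of_nonneg hA']
    exact mul_le_mul_of_nonneg_left h2 hA'
  have h9 : A * S / L ^ 2 ≤ (4 / L) * (A' * M0) := by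
    have h10 : A * S ≤ 4 * (A' * M0) := by
      calc A * S ≤ (2 * A') * (2 * M0) := mul_le_mul hA2 hS2 hS0 (by positivity)
        _ = _ := by ring
    calc A * S / L ^ 2 ≤ 4 * (A' * M0) / L ^ 2 := by gcongr
      _ = (4 / L) * (A' * M0) * (1 / L) := by field_simp
      _ ≤ (4 / L) * (A' * M0) * 1 := by
          gcongr
          rw [div_le_one hL0]; linarith
      _ = _ := mul_one _
  have h10 : (C0 + 20) / L * (A' * M0) = (4 / L) * (A' * M0) + ((8 / L * A') * (2 * M0) +
      A' * (C0 / L * M0)) := by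
    field_simp
    ring
  linarith

lemma Pd_nonneg (a D : ℤ) (M N : ℕ) : 0 ≤ Pd a D M N := by
  unfold Pd
  refine prod_nonneg fun p hp => ?_
  rw [mem_filter] at hp
  have hp3 : 3 ≤ p := by
    have := hp.2.1.two_le
    have := hp.2.2.1
    omega
  have hpr : (3:ℝ) ≤ p := by exact_mod_cast hp3
  have h1 : |(jacobiSym D p : ℝ)| ≤ 1 := by
    have := jacobiSym.trichotomy D p
    rcases this with h | h | h <;> rw [h] <;> norm_num
  have h2 : (jacobiSym D p : ℝ) / (p - 1) ≤ 1 := by
    rw [div_le_one (by linarith)]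
    linarith [(abs_le.mp h1).2]
  linarith

lemma Pd_mul (a D : ℤ) (M N : ℕ) (h : M ≤ N) : Pd a D 0 M * Pd a D M N = Pd a D 0 N := by
  unfold Pd
  rw [← prod_union]
  · congr 1
    rw [← filter_union]
    congr 1
    ext k
    simp only [mem_union, mem_Ioc]
    omega
  · apply disjoint_filter_filter
    rw [disjoint_left]
    intro k hk hk2
    rw [mem_Ioc] at hk hk2
    omega

lemma Pg_mul (a b : ℤ) (M N : ℕ) (h : M ≤ N) : Pg a b 0 M * Pg a b M N = Pg a b 0 N := by
  unfold Pg
  rw [← prod_union]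
  · congr 1
    rw [← filter_union]
    congr 1
    ext k
    simp only [mem_union, mem_Ioc]
    omega
  · apply disjoint_filter_filter
    rw [disjoint_left]
    intro k hk hk2
    rw [mem_Ioc] at hk hk2
    omega

lemma Pg_one_le (a b : ℤ) (M N : ℕ) : 1 ≤ Pg a b M N := by
  unfold Pg
  calc (1:ℝ) = ∏ p ∈ (Ioc M N).filter
        (fun p : ℕ => p.Prime ∧ p ≠ 2 ∧ (p : ℤ) ∣ a ∧ (p : ℤ) ∣ b), (1:ℝ) := by
          rw [prod_const_one]
    _ ≤ _ := by
        refine Finset.prod_le_prod (fun _ _ => zero_le_one) fun p hp => ?_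
        rw [mem_filter] at hp
        have hp3 : 2 ≤ p := hp.2.1.two_le
        have hpr : (2:ℝ) ≤ p := by exact_mod_cast hp3
        rw [one_le_div (by linarith)]
        linarith

/-- few large primes divide `a` -/
lemma few_primes (a : ℤ) (z N H : ℕ) (ha0 : 0 < a) (haH : a ≤ H) :
    (((Ioc z N).filter (fun p : ℕ => p.Prime ∧ (p : ℤ) ∣ a)).card : ℝ) ≤ 2 * Real.log H := by
  set S := (Ioc z N).filter (fun p : ℕ => p.Prime ∧ (p : ℤ) ∣ a) with hS
  have h1 : S ⊆ a.natAbs.primeFactors := by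
    intro p hp
    rw [hS, mem_filter] at hp
    rw [Nat.mem_primeFactors]
    refine ⟨hp.2.1, ?_, by omega⟩
    exact Int.natCast_dvd.mp hp.2.2
  have h2 : 2 ^ S.card ≤ a.natAbs := by
    calc 2 ^ S.card ≤ 2 ^ a.natAbs.primeFactors.card :=
          Nat.pow_le_pow_right (by norm_num) (card_le_card h1)
      _ = ∏ p ∈ a.natAbs.primeFactors, 2 := by rw [prod_const]
      _ ≤ ∏ p ∈ a.natAbs.primeFactors, p :=
          prod_le_prod' fun p hp => (Nat.prime_of_mem_primeFactors hp).two_le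
      _ ≤ a.natAbs := Nat.le_of_dvd (by omega) (Nat.prod_primeFactors_dvd _)
  have h3 : ((2:ℝ)) ^ S.card ≤ H := by
    have h4 : a.natAbs ≤ H := by omega
    exact_mod_cast h2.trans h4
  have h4 : (S.card : ℝ) * Real.log 2 ≤ Real.log H := by
    rw [← Real.log_pow]
    exact Real.log_le_log (by positivity) h3
  have h5 := Real.log_two_gt_d9
  have h6 : (0:ℝ) ≤ S.card := Nat.cast_nonneg _
  nlinarith

lemma Pg_tail (a b : ℤ) (z N H : ℕ) (ha0 : 0 < a) (haH : a ≤ H) (hz : 10 ≤ z)
    (hs : 2 * Real.log H / z ≤ 1 / 4) :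
    Pg a b z N ≤ 1 + 8 * Real.log H / z := by
  have hzr : (10:ℝ) ≤ z := by exact_mod_cast hz
  have hw := few_primes a z N H ha0 haH
  have h1 : Pg a b z N ≤ Real.exp (2 * Real.log H * (2 / z)) := by
    unfold Pg
    calc ∏ p ∈ (Ioc z N).filter (fun p : ℕ => p.Prime ∧ p ≠ 2 ∧ (p : ℤ) ∣ a ∧ (p : ℤ) ∣ b),
        ((p : ℝ) / (p - 1)) ≤
        ∏ p ∈ (Ioc z N).filter (fun p : ℕ => p.Prime ∧ p ≠ 2 ∧ (p : ℤ) ∣ a ∧ (p : ℤ) ∣ b),
        Real.exp (2 / z) := by
          apply Finset.prod_le_prod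
          · intro p hp
            rw [mem_filter, mem_Ioc] at hp
            have : (z:ℝ) < p := by exact_mod_cast hp.1.1
            have h2 : (0:ℝ) < (p:ℝ) - 1 := by linarith
            positivity
          · intro p hp
            rw [mem_filter, mem_Ioc] at hp
            have h0 : (z:ℝ) < p := by exact_mod_cast hp.1.1
            have h2 : (0:ℝ) < (p:ℝ) - 1 := by linarith
            refine le_trans ?_ (Real.add_one_le_exp _)
            have h3 : (p:ℝ) / (p - 1) = 1 / (p - 1) + 1 := by field_simp; ring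
            rw [h3]
            have h4 : 1 / ((p:ℝ) - 1) ≤ 2 / z := by
              rw [div_le_div_iff₀ h2 (by linarith)]
              linarith
            linarith
      _ = Real.exp (((((Ioc z N).filter (fun p : ℕ => p.Prime ∧ p ≠ 2 ∧ (p : ℤ) ∣ a ∧
            (p : ℤ) ∣ b)).card : ℕ) : ℝ) * (2 / z)) := by
          rw [prod_const, ← Real.exp_nat_mul]
      _ ≤ Real.exp (2 * Real.log H * (2 / z)) := by
          apply Real.exp_le_exp.mpr
          apply mul_le_mul_of_nonneg_right _ (by positivity)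
          refine le_trans ?_ hw
          have : ((Ioc z N).filter (fun p : ℕ => p.Prime ∧ p ≠ 2 ∧ (p : ℤ) ∣ a ∧
              (p : ℤ) ∣ b)).card ≤ ((Ioc z N).filter (fun p : ℕ => p.Prime ∧ (p : ℤ) ∣ a)).card := by
            apply card_le_card
            intro p hp
            rw [mem_filter] at hp ⊢
            exact ⟨hp.1, hp.2.1, hp.2.2.2.1⟩
          exact_mod_cast this
  refine h1.trans ?_
  set t := 2 * Real.log H * (2 / z) with ht
  have hH1 : (1:ℝ) ≤ H := by
    have : (1:ℤ) ≤ H := by omega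
    exact_mod_cast this
  have hlog : 0 ≤ Real.log H := Real.log_nonneg hH1
  have ht0 : 0 ≤ t := by positivity
  have ht1 : t ≤ 1 / 2 := by
    have : t = 2 * (2 * Real.log H / z) := by rw [ht]; ring
    rw [this]; linarith
  have h5 : Real.exp t ≤ 1 + 2 * t := by
    have h6 := Real.abs_exp_sub_one_le (x := t) (by rw [abs_of_nonneg ht0]; linarith)
    rw [abs_of_nonneg ht0] at h6
    linarith [(abs_le.mp h6).2]
  refine h5.trans (le_of_eq ?_)
  rw [ht]; ring

end Pool.Agent.H300R2.EC
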