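import Pool.Agent.H300R2.EC.Comb
import Pool.Agent.H913R2.EC_X9

/-!
The Hardy-Littlewood asymptotic formula with the exact constant for almost all quadratic
polynomials.
-/

namespace Pool.Agent.H300R2.EC

open Finset Polynomial Filter
open Pool.Agent.H442R2.EHI (evt_log_pow evt_log_ge)
open Pool.Agent.H300R2.BH
open Pool.Agent.H300R2.FB (full_unif)
open Pool.Agent.H75R2.ECT (tail_prod)
open Pool.Agent.H18R2.EC (SS_quad)

/-- the quadratic polynomial -/
noncomputable def qf (a b c : ℤ) : ℤ[X] := C a * X ^ 2 + C b * X + C c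

lemma qf_eval (a b c : ℤ) (m : ℤ) : (qf a b c).eval m = a * m ^ 2 + b * m + c := by
  unfold qf
  simp

lemma qf_coeff (a b c : ℤ) (i : ℕ) : (qf a b c).coeff i =
    if i = 0 then c else if i = 1 then b else if i = 2 then a else 0 := by
  unfold qf
  rw [coeff_add, coeff_add, coeff_C_mul, coeff_C_mul, coeff_X_pow, coeff_X, coeff_C]
  rcases i with _ | _ | _ | i
  · simp
  · simp
  · simp
  · simp

lemma qf_natDegree (a b c : ℤ) (ha : a ≠ 0) : (qf a b c).natDegree = 2 := by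
  unfold qf
  exact natDegree_quadratic ha

lemma qf_leadingCoeff (a b c : ℤ) (ha : a ≠ 0) : (qf a b c).leadingCoeff = a := by
  unfold qf
  exact leadingCoeff_quadratic ha

lemma qf_inj {a b c a' b' c' : ℤ} (h : qf a b c = qf a' b' c') : a = a' ∧ b = b' ∧ c = c' := by
  have h0 := congrArg (fun F : ℤ[X] => F.coeff 0) h
  have h1 := congrArg (fun F : ℤ[X] => F.coeff 1) h
  have h2 := congrArg (fun F : ℤ[X] => F.coeff 2) h
  simp only [qf_coeff] at h0 h1 h2
  norm_num at h0 h1 h2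
  exact ⟨h2, h1, h0⟩

/-- the number of positive integers `m` with `a m² + b m + c` prime and less than `x` -/
noncomputable def piF (a b c : ℤ) (x : ℝ) : ℝ :=
  (Set.ncard {m : ℕ | 1 ≤ m ∧ Nat.Prime (a * (m : ℤ) ^ 2 + b * m + c).toNat ∧
    ((a * (m : ℤ) ^ 2 + b * m + c : ℤ) : ℝ) < x} : ℝ)

/-- the right-hand side of the conjecture, with the value `C` of the product -/
noncomputable def mainTerm (a b : ℤ) (C x : ℝ) : ℝ :=
  (if Even (a + b) then (2 : ℝ) else 1) * C / Real.sqrt (a : ℝ) * (Real.sqrt x / Real.log x) *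
    ∏ p ∈ (Nat.primeFactors (Int.gcd a b)).filter (fun p : ℕ => 2 < p), ((p : ℝ) / ((p : ℝ) - 1))

lemma piF_eq (a b c : ℤ) (x : ℝ) (K : ℕ)
    (h : ∀ m : ℕ, 1 ≤ m → (((a * (m : ℤ) ^ 2 + b * m + c : ℤ) : ℝ) < x ↔ m ≤ K)) :
    piF a b c x = pv (qf a b c) K := by
  unfold piF pv
  rw [← Set.ncard_coe_finset]
  congr 2
  ext m
  simp only [Set.mem_ofPred_eq, coe_filter, mem_Icc, qf_eval]
  constructor
  · rintro ⟨h1, h2, h3⟩
    exact ⟨⟨h1, (h m h1).mp h3⟩, h2⟩
  · rintro ⟨⟨h1, h3⟩, h2⟩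
    exact ⟨h1, h2, (h m h1).mpr h3⟩

lemma lF_eq (a b c : ℤ) (K : ℕ) : lF (qf a b c) K =
    ∑ m ∈ (Icc 1 K).filter (fun m : ℕ => 2 ≤ a * (m : ℤ) ^ 2 + b * m + c),
      1 / Real.log ((a * (m : ℤ) ^ 2 + b * m + c : ℤ) : ℝ) := by
  unfold lF
  simp only [qf_eval]

lemma no_fixed (a b c : ℤ) (h1 : Int.gcd (Int.gcd a b) c = 1) (h2 : ¬ (Even (a + b) ∧ Even c))
    (p : ℕ) (hp : p.Prime) : ∃ n : ℤ, ¬ (p : ℤ) ∣ (qf a b c).eval n := by
  by_contra hcon
  push Not at hcon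
  have e0 := hcon 0
  have e1 := hcon 1
  have e2 := hcon 2
  simp only [qf_eval] at e0 e1 e2
  have hc : (p : ℤ) ∣ c := by simpa using e0
  have hab : (p : ℤ) ∣ a + b := by
    have := dvd_sub e1 hc
    have h3 : a * 1 ^ 2 + b * 1 + c - c = a + b := by ring
    rwa [h3] at this
  by_cases hp2 : p = 2
  · apply h2
    rw [hp2] at hc hab
    exact ⟨even_iff_two_dvd.mpr (by exact_mod_cast hab), even_iff_two_dvd.mpr (by exact_mod_cast hc)⟩
  · have h4 : (p : ℤ) ∣ 2 * a := by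
      have h5 := dvd_sub (dvd_sub e2 hc) (dvd_mul_of_dvd_right hab 2)
      have h6 : a * 2 ^ 2 + b * 2 + c - c - 2 * (a + b) = 2 * a := by ring
      rwa [h6] at h5
    have hpI : Prime (p : ℤ) := Nat.prime_iff_prime_int.mp hp
    have h7 : (p : ℤ) ∣ a := by
      rcases hpI.dvd_or_dvd h4 with h | h
      · exfalso
        have h8 : p ∣ 2 := by exact_mod_cast h
        exact hp2 ((Nat.prime_dvd_prime_iff_eq hp Nat.prime_two).mp h8)
      · exact h
    have h8 : (p : ℤ) ∣ b := by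
      have := dvd_sub hab h7
      rwa [add_sub_cancel_left] at this
    have h9 : (p : ℤ) ∣ (Int.gcd (Int.gcd a b) c : ℤ) := by
      apply Int.dvd_coe_gcd
      · exact Int.dvd_coe_gcd h7 h8
      · exact hc
    rw [h1] at h9
    have h10 : p ∣ 1 := by exact_mod_cast h9
    exact hp.one_lt.ne' (Nat.dvd_one.mp h10)

lemma gprod_eq (a b : ℤ) (ha : 0 < a) (N : ℕ) (hN : a ≤ N) :
    ∏ p ∈ (Nat.primeFactors (Int.gcd a b)).filter (fun p : ℕ => 2 < p), ((p : ℝ) / ((p : ℝ) - 1)) =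
      Pg a b 0 N := by
  unfold Pg
  congr 1
  ext p
  simp only [mem_filter, Nat.mem_primeFactors, mem_Ioc]
  have hg0 : Int.gcd a b ≠ 0 := by
    intro h
    rw [Int.gcd_eq_zero_iff] at h
    omega
  constructor
  · rintro ⟨⟨hp, hd, -⟩, h2⟩
    have hdg : (p : ℤ) ∣ (Int.gcd a b : ℤ) := by exact_mod_cast hd
    have hda : (p : ℤ) ∣ a := hdg.trans (Int.gcd_dvd_left _ _)
    have hdb : (p : ℤ) ∣ b := hdg.trans (Int.gcd_dvd_right _ _)
    refine ⟨⟨hp.pos, ?_⟩, hp, by omega, hda, hdb⟩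
    have := Int.le_of_dvd ha hda
    omega
  · rintro ⟨⟨h1, h2⟩, hp, h3, hda, hdb⟩
    refine ⟨⟨hp, ?_, hg0⟩, ?_⟩
    · have : (p : ℤ) ∣ (Int.gcd a b : ℤ) := Int.dvd_coe_gcd hda hdb
      exact_mod_cast this
    · have := hp.two_le
      omega

lemma range_eq (a D : ℤ) (N : ℕ) :
    ∏ p ∈ (range (N + 1)).filter (fun p : ℕ => Nat.Prime p ∧ 2 < p ∧ ¬ ((p : ℤ) ∣ a)),
      (1 - ((jacobiSym D p : ℤ) : ℝ) / ((p : ℝ) - 1)) = Pd a D 0 N := by
  unfold Pd
  congr 1
  ext p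
  simp only [mem_filter, mem_range, mem_Ioc]
  constructor
  · rintro ⟨h1, hp, h2, h3⟩
    exact ⟨⟨hp.pos, by omega⟩, hp, by omega, h3⟩
  · rintro ⟨⟨h1, h2⟩, hp, h3, h4⟩
    have := hp.two_le
    exact ⟨by omega, hp, by omega, h4⟩

/-- the constant from the truncated product -/
lemma const_close (a b c : ℤ) (H z : ℕ) (L C' : ℝ) (hL : L = Real.log H) (hL10 : 10 ≤ L)
    (ha0 : 0 < a) (haH : a ≤ H) (hz : L ^ 3 ≤ z)
    (h1 : Int.gcd (Int.gcd a b) c = 1) (h2 : ¬ (Even (a + b) ∧ Even c))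
    (hgood : ∀ n : ℕ, |Sd (b ^ 2 - 4 * a * c) z (z * 2 ^ n)| ≤ 1 / L ^ 2) (hC : 0 < C')
    (hlim : Tendsto (fun N : ℕ => Pd a (b ^ 2 - 4 * a * c) 0 N) atTop (nhds C')) :
    |SS z (qf a b c) - (if Even (a + b) then (2 : ℝ) else 1) * C' *
      ∏ p ∈ (Nat.primeFactors (Int.gcd a b)).filter (fun p : ℕ => 2 < p),
        ((p : ℝ) / ((p : ℝ) - 1))| ≤
      8 / L * ((if Even (a + b) then (2 : ℝ) else 1) * C' *
      ∏ p ∈ (Nat.primeFactors (Int.gcd a b)).filter (fun p : ℕ => 2 < p),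
        ((p : ℝ) / ((p : ℝ) - 1))) := by
  set D := b ^ 2 - 4 * a * c with hD
  have hL0 : 0 < L := by linarith
  have hL3 : (1000:ℝ) ≤ L ^ 3 := by
    calc (1000:ℝ) = 10 ^ 3 := by norm_num
      _ ≤ L ^ 3 := by gcongr
  have hzr : (1000:ℝ) ≤ z := hL3.trans hz
  have hz0 : (0:ℝ) < z := by linarith
  have hz10 : 10 ≤ z := by
    have : (10:ℝ) ≤ z := by linarith
    exact_mod_cast this
  -- 1 / z
  have hLz : L / z ≤ 1 / L ^ 2 := by
    rw [div_le_div_iff₀ hz0 (by positivity)]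
    calc L * L ^ 2 = L ^ 3 := by ring
      _ ≤ 1 * (z : ℝ) := by rw [one_mul]; exact hz
  have hL2 : 1 / L ^ 2 ≤ 1 / (10 * L) := by
    apply one_div_le_one_div_of_le (by positivity)
    nlinarith
  have hL2' : 1 / (10 * L) = (1 / 10) * (1 / L) := by field_simp
  have hL1 : 1 / L ≤ 1 / 10 := one_div_le_one_div_of_le (by norm_num) hL10
  have hL1p : 0 < 1 / L := by positivity
  set η := 1 / L ^ 2 + (2 * L + 8) / z with hη
  have hη1 : η ≤ (4 / 10) * (1 / L) := by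
    have h3 : (2 * L + 8) / z ≤ 3 * (L / z) := by
      rw [mul_div_assoc']
      gcongr
      linarith
    rw [hη]
    linarith
  have hη0 : 0 ≤ η := by positivity
  have hη4 : η ≤ 1 / 4 := by linarith
  -- tails
  have htail : ∀ n : ℕ, |Pd a D z (z * 2 ^ n) - 1| ≤ 2 * η := by
    intro n
    exact tail_prod a D z (z * 2 ^ n) (2 * L) (1 / L ^ 2) hz10
      (by rw [hL]; exact few_primes a z (z * 2 ^ n) H ha0 haH) (hgood n) (by linarith)
  have hPz0 : 0 ≤ Pd a D 0 z := Pd_nonneg a D 0 z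
  have hclose : |C' - Pd a D 0 z| ≤ 2 * η * Pd a D 0 z := by
    have hsub : Tendsto (fun n : ℕ => Pd a D 0 (z * 2 ^ n)) atTop (nhds C') := by
      apply hlim.comp
      apply tendsto_atTop_mono (fun n => ?_) tendsto_id
      calc id n ≤ 2 ^ n := Nat.lt_two_pow_self.le
        _ ≤ z * 2 ^ n := Nat.le_mul_of_pos_left _ (by omega)
    have hsub2 : Tendsto (fun n : ℕ => |Pd a D 0 (z * 2 ^ n) - Pd a D 0 z|) atTop
        (nhds |C' - Pd a D 0 z|) := (hsub.sub_const _).abs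
    apply le_of_tendsto' hsub2
    intro n
    rw [← Pd_mul a D z (z * 2 ^ n) (Nat.le_mul_of_pos_right _ (by positivity))]
    have e1 : Pd a D 0 z * Pd a D z (z * 2 ^ n) - Pd a D 0 z =
        Pd a D 0 z * (Pd a D z (z * 2 ^ n) - 1) := by ring
    rw [e1, abs_mul, abs_of_nonneg hPz0, mul_comm]
    exact mul_le_mul_of_nonneg_right (htail n) hPz0
  have hPC : Pd a D 0 z ≤ 2 * C' := by
    have h3 := (abs_le.mp hclose).1
    have h4 : 2 * η * Pd a D 0 z ≤ (1 / 2) * Pd a D 0 z := by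
      gcongr; linarith
    linarith
  -- the product over gcd
  rw [gprod_eq a b ha0 (max z H) (by
    have : H ≤ max z H := le_max_right _ _
    omega)]
  rw [← Pg_mul a b z (max z H) (le_max_left _ _)]
  have hg1 := Pg_one_le a b z (max z H)
  have hg2 := Pg_tail a b z (max z H) H ha0 haH hz10 (by
    rw [← hL, mul_div_assoc]
    have : L / z ≤ (1 / 10) * (1 / L) := hLz.trans (hL2.trans (le_of_eq hL2'))
    linarith)
  rw [← hL] at hg2
  have hg0 := Pg_one_le a b 0 z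
  have hSS : SS z (qf a b c) = (if Even (a + b) then (2 : ℝ) else 1) * Pg a b 0 z * Pd a D 0 z := by
    have h3 := SS_quad a b c z (by omega) ha0.ne' (fun p hp hcon => by
      have h9 : (p : ℤ) ∣ (Int.gcd (Int.gcd a b) c : ℤ) := by
        apply Int.dvd_coe_gcd
        · exact Int.dvd_coe_gcd hcon.1 hcon.2.1
        · exact hcon.2.2
      rw [h1] at h9
      have h10 : p ∣ 1 := by exact_mod_cast h9
      exact hp.one_lt.ne' (Nat.dvd_one.mp h10)) (fun hcon => h2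
        ⟨even_iff_two_dvd.mpr hcon.1, even_iff_two_dvd.mpr hcon.2⟩)
    unfold qf
    rw [h3]
    simp only [even_iff_two_dvd]
    rfl
  rw [hSS]
  set e2 : ℝ := if Even (a + b) then (2 : ℝ) else 1 with he2
  have he20 : 0 ≤ e2 := by rw [he2]; split_ifs <;> norm_num
  set g1 := Pg a b 0 z with hg1d
  set g2 := Pg a b z (max z H) with hg2d
  set Pz := Pd a D 0 z with hPz
  have hg10 : 0 ≤ g1 := by linarith
  have e1 : e2 * g1 * Pz - e2 * C' * (g1 * g2) = (e2 * g1) * (Pz - C' * g2) := by ring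
  rw [e1, abs_mul, abs_of_nonneg (mul_nonneg he20 hg10)]
  have h5 : |Pz - C' * g2| ≤ 8 / L * (C' * g2) := by
    have e3 : Pz - C' * g2 = -(C' - Pz) + -(C' * (g2 - 1)) := by ring
    rw [e3]
    refine (abs_add_le _ _).trans ?_
    rw [abs_neg, abs_neg, abs_of_nonneg (mul_nonneg hC.le (by linarith : (0:ℝ) ≤ g2 - 1))]
    have h6 : 2 * η * Pz ≤ 2 * η * (2 * C') := by gcongr
    have h7 : C' * (g2 - 1) ≤ C' * (8 * L / z) := by
      gcongr
      linarith
    have h8 : 8 * L / z ≤ 8 * ((1 / 10) * (1 / L)) := by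
      rw [mul_div_assoc]
      have : L / z ≤ (1 / 10) * (1 / L) := hLz.trans (hL2.trans (le_of_eq hL2'))
      linarith
    have h9 : C' ≤ C' * g2 := le_mul_of_one_le_right hC.le hg1
    calc |C' - Pz| + C' * (g2 - 1) ≤ 2 * η * (2 * C') + C' * (8 * ((1 / 10) * (1 / L))) := by
          have h10 := mul_le_mul_of_nonneg_left h8 hC.le
          linarith
      _ = C' * (4 * η + 8 / 10 * (1 / L)) := by ring
      _ ≤ C' * (8 * (1 / L)) := by
          gcongr
          linarith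
      _ ≤ (C' * g2) * (8 * (1 / L)) := by gcongr
      _ = 8 / L * (C' * g2) := by ring
  calc e2 * g1 * |Pz - C' * g2| ≤ e2 * g1 * (8 / L * (C' * g2)) := by gcongr
    _ = _ := by ring

end Pool.Agent.H300R2.EC
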