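import Pool.Agent.H300R2.EC.Final
import Pool.Agent.H715R2.EC_conv_prod

/-!
The Hardy-Littlewood asymptotic formula with the exact constant for almost all quadratic
polynomials: the final theorem.
-/

namespace Pool.Agent.H300R2.EC

open Finset Polynomial Filter
open Pool.Agent.H442R2.EHI (evt_log_pow evt_log_ge)
open Pool.Agent.H300R2.BH
open Pool.Agent.H300R2.FB (full_unif)

/-- the box of triples -/
noncomputable def Bx (H : ℕ) : Finset (ℤ × ℤ × ℤ) :=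
  (Icc (1 : ℤ) H) ×ˢ ((Icc (-(H : ℤ)) H) ×ˢ (Icc (-(H : ℤ)) H))

lemma card_Icc_sym (H : ℕ) : ((Icc (-(H : ℤ)) H).card : ℝ) = 2 * H + 1 := by
  rw [Int.card_Icc]
  have : ((H : ℤ) + 1 - -(H : ℤ)).toNat = 2 * H + 1 := by omega
  rw [this]; push_cast; ring

lemma card_T1 (H : ℕ) (T1 : Finset ℤ[X]) [DecidablePred fun t : ℤ × ℤ × ℤ => qf t.1 t.2.1 t.2.2 ∈ T1] :
    (((Bx H).filter (fun t : ℤ × ℤ × ℤ => qf t.1 t.2.1 t.2.2 ∈ T1)).card : ℝ) ≤ T1.card := by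
  have h : ((Bx H).filter (fun t : ℤ × ℤ × ℤ => qf t.1 t.2.1 t.2.2 ∈ T1)).card ≤ T1.card := by
    apply card_le_card_of_injOn (fun t : ℤ × ℤ × ℤ => qf t.1 t.2.1 t.2.2)
    · intro t ht
      rw [mem_coe, mem_filter] at ht
      exact ht.2
    · rintro ⟨a, b, c⟩ _ ⟨a', b', c'⟩ _ h
      obtain ⟨h1, h2, h3⟩ := qf_inj h
      simp only at h1 h2 h3
      rw [h1, h2, h3]
  exact_mod_cast h

lemma card_small_a (H : ℕ) (y : ℝ) (hy : 0 ≤ y)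
    [DecidablePred fun t : ℤ × ℤ × ℤ => (t.1 : ℝ) < y] :
    (((Bx H).filter (fun t : ℤ × ℤ × ℤ => (t.1 : ℝ) < y)).card : ℝ) ≤ y * (2 * H + 1) ^ 2 := by
  have h1 : (Bx H).filter (fun t : ℤ × ℤ × ℤ => (t.1 : ℝ) < y) ⊆
      (Icc (1 : ℤ) ⌊y⌋₊) ×ˢ ((Icc (-(H : ℤ)) H) ×ˢ (Icc (-(H : ℤ)) H)) := by
    rintro ⟨a, b, c⟩ ht
    rw [mem_filter, Bx, mem_product, mem_product] at ht
    rw [mem_product, mem_product]
    refine ⟨?_, ht.1.2⟩
    have h2 := ht.1.1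
    rw [mem_Icc] at h2 ⊢
    refine ⟨h2.1, ?_⟩
    simp only at h2 ⊢
    have h3 : a.toNat ≤ ⌊y⌋₊ := by
      apply Nat.le_floor
      have h4 : ((a.toNat : ℕ) : ℝ) = (a : ℝ) := by
        have : ((a.toNat : ℕ) : ℤ) = a := Int.toNat_of_nonneg (by omega)
        exact_mod_cast this
      rw [h4]
      exact ht.2.le
    omega
  have h2 := card_le_card h1
  have h3 : (((Bx H).filter (fun t : ℤ × ℤ × ℤ => (t.1 : ℝ) < y)).card : ℝ) ≤
      (((Icc (1 : ℤ) ⌊y⌋₊) ×ˢ ((Icc (-(H : ℤ)) H) ×ˢ (Icc (-(H : ℤ)) H))).card : ℝ) := by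
    exact_mod_cast h2
  refine h3.trans ?_
  rw [card_product, card_product]
  push_cast
  rw [card_Icc_sym, Int.card_Icc]
  have h4 : ((⌊y⌋₊ : ℤ) + 1 - 1).toNat = ⌊y⌋₊ := by omega
  rw [h4]
  have h5 : ((⌊y⌋₊ : ℕ) : ℝ) ≤ y := Nat.floor_le hy
  calc ((⌊y⌋₊ : ℕ) : ℝ) * ((2 * H + 1) * (2 * H + 1)) ≤ y * ((2 * H + 1) * (2 * H + 1)) := by
        gcongr
    _ = _ := by ring

lemma card_c0 (H : ℕ) :
    (((Bx H).filter (fun t : ℤ × ℤ × ℤ => t.2.2 = 0)).card : ℝ) ≤ H * (2 * H + 1) := by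
  have h1 : (Bx H).filter (fun t : ℤ × ℤ × ℤ => t.2.2 = 0) ⊆
      (Icc (1 : ℤ) H) ×ˢ ((Icc (-(H : ℤ)) H) ×ˢ ({0} : Finset ℤ)) := by
    rintro ⟨a, b, c⟩ ht
    rw [mem_filter, Bx, mem_product, mem_product] at ht
    rw [mem_product, mem_product, mem_singleton]
    exact ⟨ht.1.1, ht.1.2.1, ht.2⟩
  have h3 : (((Bx H).filter (fun t : ℤ × ℤ × ℤ => t.2.2 = 0)).card : ℝ) ≤
      (((Icc (1 : ℤ) H) ×ˢ ((Icc (-(H : ℤ)) H) ×ˢ ({0} : Finset ℤ))).card : ℝ) := by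
    exact_mod_cast card_le_card h1
  refine h3.trans (le_of_eq ?_)
  rw [card_product, card_product]
  push_cast
  rw [card_Icc_sym, Int.card_Icc, card_singleton]
  have h4 : ((H : ℤ) + 1 - 1).toNat = H := by omega
  rw [h4]
  push_cast
  ring

lemma card_union4 (A B C D : Finset (ℤ × ℤ × ℤ)) :
    ((A ∪ (B ∪ (C ∪ D))).card : ℝ) ≤ A.card + (B.card + (C.card + D.card)) := by
  have h1 := card_union_le A (B ∪ (C ∪ D))
  have h2 := card_union_le B (C ∪ D)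
  have h3 := card_union_le C D
  have h4 : (A ∪ (B ∪ (C ∪ D))).card ≤ A.card + (B.card + (C.card + D.card)) := by omega
  exact_mod_cast h4

theorem hl_exact
    (good_D : ∀ V : ℕ, ∃ E0 : ℕ, ∀ E : ℕ, E0 ≤ E → ∃ H0 : ℕ, ∀ H : ℕ, H0 ≤ H → ∃ S : Finset ℤ,
      (S.card : ℝ) ≤ (H : ℝ) ^ (3 / 2 : ℝ) ∧ ∀ D : ℤ, ¬ IsSquare D → |D| ≤ 5 * (H : ℤ) ^ 2 →
      D ∉ S → ∀ n : ℕ, |Sd D ⌊Real.log H ^ E⌋₊ (⌊Real.log H ^ E⌋₊ * 2 ^ n)| ≤ 1 / Real.log H ^ V)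
    (conv_prod : ∀ a D : ℤ, a ≠ 0 → ¬ IsSquare D →
      ∃ C : ℝ, 0 < C ∧ Tendsto (fun N : ℕ => Pd a D 0 N) atTop (nhds C))
    (count_form : ∀ ε : ℝ, 0 < ε → ∃ C0 : ℝ, ∀ U B : ℕ, ∃ B' H0 : ℕ, ∀ H : ℕ, H0 ≤ H →
      ∀ a b c : ℤ, (H : ℝ) / Real.log H ^ U ≤ a → a ≤ H → |b| ≤ H → |c| ≤ H → ∀ x : ℝ,
      (H : ℝ) ^ (1 + ε) ≤ x → x * Real.log H ^ B' ≤ (H : ℝ) ^ 3 → ∃ K : ℕ,
      (∀ m : ℕ, 1 ≤ m → (((a * (m : ℤ) ^ 2 + b * m + c : ℤ) : ℝ) < x ↔ m ≤ K)) ∧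
      (H : ℝ) ^ (ε / 3) ≤ K ∧ (K : ℝ) * Real.log H ^ B ≤ H ∧
      |∑ m ∈ (Icc 1 K).filter (fun m : ℕ => 2 ≤ a * (m : ℤ) ^ 2 + b * m + c),
        1 / Real.log ((a * (m : ℤ) ^ 2 + b * m + c : ℤ) : ℝ) -
          Real.sqrt x / (Real.sqrt a * Real.log x)| ≤
        C0 / Real.log H * (Real.sqrt x / (Real.sqrt a * Real.log x)))
    (triples : ∀ ε : ℝ, 0 < ε → ∃ C : ℝ, ∀ H : ℕ, 1 ≤ H → ∀ S : Finset ℤ,
      ((((Icc (1 : ℤ) H) ×ˢ ((Icc (-(H : ℤ)) H) ×ˢ (Icc (-(H : ℤ)) H))).filter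
        (fun t : ℤ × ℤ × ℤ => t.2.2 ≠ 0 ∧ t.2.1 ^ 2 - 4 * t.1 * t.2.2 ∈ S)).card : ℝ) ≤
        C * S.card * H * (H : ℝ) ^ ε)
    (ε : ℝ) (hε : 0 < ε) : ∃ C1 : ℝ, ∀ U : ℕ, ∃ B H0 : ℕ, ∀ H : ℕ, H0 ≤ H →
    ∃ T : Finset (ℤ × ℤ × ℤ), (T.card : ℝ) ≤ (H : ℝ) ^ 3 / Real.log H ^ U ∧
    ∀ a b c : ℤ, 0 < a → a ≤ H → |b| ≤ H → |c| ≤ H → (a, b, c) ∉ T →
    Int.gcd (Int.gcd a b) c = 1 → ¬ (Even (a + b) ∧ Even c) →
    ∃ C : ℝ, 0 < C ∧
    Tendsto (fun N : ℕ => ∏ p ∈ (range N).filter (fun p : ℕ => Nat.Prime p ∧ 2 < p ∧ ¬ ((p : ℤ) ∣ a)),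
      (1 - ((jacobiSym (b ^ 2 - 4 * a * c) p : ℤ) : ℝ) / ((p : ℝ) - 1))) atTop (nhds C) ∧
    ∀ x : ℝ, (H : ℝ) ^ (1 + ε) ≤ x → x * Real.log H ^ B ≤ (H : ℝ) ^ 3 →
    |piF a b c x - mainTerm a b C x| ≤ C1 / Real.log H * mainTerm a b C x := by
  classical
  obtain ⟨C0, hcf⟩ := count_form ε hε
  refine ⟨|C0| + 20, fun U => ?_⟩
  obtain ⟨E1, hE1⟩ := full_unif 2 (by norm_num) (ε / 3) (by positivity) (U + 3)
  obtain ⟨E0, hE0⟩ := good_D 2
  set E := max E1 E0 + 4 with hE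
  obtain ⟨B1, H1, hfu⟩ := hE1 E (by omega)
  obtain ⟨H2, hgd⟩ := hE0 E (by omega)
  obtain ⟨B', H3, hcount⟩ := hcf (U + 3) B1
  obtain ⟨Ct, htr⟩ := triples (1 / 4) (by norm_num)
  have hev : ∀ᶠ H : ℕ in atTop, H1 ≤ H ∧ H2 ≤ H ∧ H3 ≤ H ∧
      max (max |C0| |Ct|) 100 ≤ Real.log H ∧
      Real.log H ^ (U + 4) ≤ (H : ℝ) ^ (1 / 4 : ℝ) ∧ 1 ≤ H := by
    filter_upwards [eventually_ge_atTop (max H1 H2), eventually_ge_atTop H3,
      evt_log_ge (max (max |C0| |Ct|) 100), evt_log_pow (U + 4) (1 / 4) (by norm_num),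
      eventually_ge_atTop 1] with H h1 h2 h3 h4 h5
    exact ⟨(le_max_left _ _).trans h1, (le_max_right _ _).trans h1, h2, h3, h4, h5⟩
  obtain ⟨H0, hH0⟩ := eventually_atTop.mp hev
  refine ⟨B', H0, fun H hH => ?_⟩
  obtain ⟨hH1, hH2, hH3, hLm, hLq, hHn⟩ := hH0 H hH
  set L := Real.log H with hLdef
  have hLC0 : |C0| ≤ L := ((le_max_left _ _).trans (le_max_left _ _)).trans hLm
  have hLCt : |Ct| ≤ L := ((le_max_right _ _).trans (le_max_left _ _)).trans hLm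
  have hL100 : 100 ≤ L := (le_max_right _ _).trans hLm
  have hL0 : 0 < L := by linarith
  have hL1 : 1 ≤ L := by linarith
  have hLp0 : ∀ n : ℕ, 0 < L ^ n := fun n => by positivity
  have hLp : ∀ n : ℕ, 1 ≤ L ^ n := fun n => one_le_pow₀ hL1
  have hLmono : ∀ m n : ℕ, m ≤ n → L ^ m ≤ L ^ n := fun m n h => pow_le_pow_right₀ hL1 h
  have hHr : (1:ℝ) ≤ H := by exact_mod_cast hHn
  have hH0' : (0:ℝ) < H := by linarith
  obtain ⟨T1, hT1c, hT1⟩ := hfu H hH1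
  obtain ⟨S, hSc, hS⟩ := hgd H hH2
  set S2 := (range (3 * H + 1)).image (fun s : ℕ => (s : ℤ) ^ 2) with hS2
  have hS2c : (S2.card : ℝ) ≤ 3 * H + 1 := by
    have h1 : S2.card ≤ 3 * H + 1 := by
      rw [hS2]
      exact card_image_le.trans (by simp)
    exact_mod_cast h1
  set y := (H:ℝ) / L ^ (U + 3) with hy
  have hy0 : 0 ≤ y := by positivity
  set T := (Bx H).filter (fun t : ℤ × ℤ × ℤ => qf t.1 t.2.1 t.2.2 ∈ T1) ∪
    ((Bx H).filter (fun t : ℤ × ℤ × ℤ => (t.1 : ℝ) < y) ∪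
    ((Bx H).filter (fun t : ℤ × ℤ × ℤ => t.2.2 = 0) ∪
    (Bx H).filter (fun t : ℤ × ℤ × ℤ => t.2.2 ≠ 0 ∧ t.2.1 ^ 2 - 4 * t.1 * t.2.2 ∈ S ∪ S2)))
    with hT
  refine ⟨T, ?_, ?_⟩
  · have c1 := card_T1 H T1
    have c2 := card_small_a H y hy0
    have c3 := card_c0 H
    have c4 := htr H hHn (S ∪ S2)
    change (((Bx H).filter (fun t : ℤ × ℤ × ℤ => t.2.2 ≠ 0 ∧
      t.2.1 ^ 2 - 4 * t.1 * t.2.2 ∈ S ∪ S2)).card : ℝ) ≤ _ at c4
    have hcu : (T.card : ℝ) ≤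
        (((Bx H).filter (fun t : ℤ × ℤ × ℤ => qf t.1 t.2.1 t.2.2 ∈ T1)).card : ℝ) +
        ((((Bx H).filter (fun t : ℤ × ℤ × ℤ => (t.1 : ℝ) < y)).card : ℝ) +
        ((((Bx H).filter (fun t : ℤ × ℤ × ℤ => t.2.2 = 0)).card : ℝ) +
        (((Bx H).filter (fun t : ℤ × ℤ × ℤ => t.2.2 ≠ 0 ∧
          t.2.1 ^ 2 - 4 * t.1 * t.2.2 ∈ S ∪ S2)).card : ℝ))) := by
      rw [hT]
      exact card_union4 _ _ _ _
    have hH4 : (H:ℝ) ^ (1/4:ℝ) ≤ H := by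
      calc (H:ℝ) ^ (1/4:ℝ) ≤ (H:ℝ) ^ (1:ℝ) := Real.rpow_le_rpow_of_exponent_le hHr (by norm_num)
        _ = H := Real.rpow_one _
    have hLH : L ^ (U + 4) ≤ H := hLq.trans hH4
    -- d1
    have d1 : (T1.card : ℝ) ≤ (H:ℝ) ^ 3 / L ^ (U + 1) := by
      refine hT1c.trans ?_
      norm_num
      apply div_le_div_of_nonneg_left (by positivity) (hLp0 _) (hLmono _ _ (by omega))
    have d2 : y * (2 * H + 1) ^ 2 ≤ (H:ℝ) ^ 3 / L ^ (U + 1) := by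
      rw [hy]
      calc (H:ℝ) / L ^ (U + 3) * (2 * H + 1) ^ 2 ≤ (H:ℝ) / L ^ (U + 3) * (3 * H) ^ 2 := by
            gcongr; linarith
        _ = ((H:ℝ) ^ 3 / L ^ (U + 1)) * (9 / L ^ 2) := by
            rw [show U + 3 = U + 1 + 2 by ring, pow_add]
            field_simp
            ring
        _ ≤ ((H:ℝ) ^ 3 / L ^ (U + 1)) * 1 := by
            gcongr
            rw [div_le_one (by positivity)]
            nlinarith
        _ = _ := mul_one _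
    have d3 : (H:ℝ) * (2 * H + 1) ≤ (H:ℝ) ^ 3 / L ^ (U + 1) := by
      rw [le_div_iff₀ (hLp0 _)]
      calc (H:ℝ) * (2 * H + 1) * L ^ (U + 1) ≤ (H:ℝ) * (L * H) * L ^ (U + 1) := by
            gcongr
            nlinarith
        _ = (H:ℝ) ^ 2 * L ^ (U + 2) := by ring
        _ ≤ (H:ℝ) ^ 2 * H := by
            gcongr
            exact (hLmono _ _ (by omega)).trans hLH
        _ = (H:ℝ) ^ 3 := by ring
    have d4 : Ct * ((S ∪ S2).card : ℝ) * H * (H:ℝ) ^ (1/4:ℝ) ≤ (H:ℝ) ^ 3 / L ^ (U + 1) := by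
      have hcS : (((S ∪ S2).card : ℕ) : ℝ) ≤ (H:ℝ) ^ (3/2:ℝ) * 5 := by
        have h1 : (((S ∪ S2).card : ℕ) : ℝ) ≤ S.card + S2.card := by
          exact_mod_cast card_union_le _ _
        have h2 : (H:ℝ) ≤ (H:ℝ) ^ (3/2:ℝ) := by
          calc (H:ℝ) = (H:ℝ) ^ (1:ℝ) := (Real.rpow_one _).symm
            _ ≤ _ := Real.rpow_le_rpow_of_exponent_le hHr (by norm_num)
        linarith
      have hq : (H:ℝ) ^ (1/4:ℝ) * (H:ℝ) ^ (1/4:ℝ) * (H:ℝ) ^ (3/2:ℝ) = (H:ℝ) ^ 2 := by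
        rw [← Real.rpow_add hH0', ← Real.rpow_add hH0', ← Real.rpow_natCast]
        norm_num
      rw [le_div_iff₀ (hLp0 _)]
      calc Ct * ((S ∪ S2).card : ℝ) * H * (H:ℝ) ^ (1/4:ℝ) * L ^ (U + 1)
          ≤ L * ((H:ℝ) ^ (3/2:ℝ) * 5) * H * (H:ℝ) ^ (1/4:ℝ) * L ^ (U + 1) := by
            gcongr
            exact (le_abs_self _).trans hLCt
        _ = 5 * L ^ (U + 2) * ((H:ℝ) ^ (3/2:ℝ) * H * (H:ℝ) ^ (1/4:ℝ)) := by ring
        _ ≤ L * L ^ (U + 2) * ((H:ℝ) ^ (3/2:ℝ) * H * (H:ℝ) ^ (1/4:ℝ)) := by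
            gcongr
            linarith
        _ = L ^ (U + 3) * ((H:ℝ) ^ (3/2:ℝ) * H * (H:ℝ) ^ (1/4:ℝ)) := by ring
        _ ≤ (H:ℝ) ^ (1/4:ℝ) * ((H:ℝ) ^ (3/2:ℝ) * H * (H:ℝ) ^ (1/4:ℝ)) := by
            gcongr
            exact (hLmono _ _ (by omega)).trans hLq
        _ = ((H:ℝ) ^ (1/4:ℝ) * (H:ℝ) ^ (1/4:ℝ) * (H:ℝ) ^ (3/2:ℝ)) * H := by ring
        _ = (H:ℝ) ^ 3 := by rw [hq]; ring
    calc (T.card : ℝ) ≤ (H:ℝ) ^ 3 / L ^ (U + 1) + ((H:ℝ) ^ 3 / L ^ (U + 1) +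
          ((H:ℝ) ^ 3 / L ^ (U + 1) + (H:ℝ) ^ 3 / L ^ (U + 1))) := by
          linarith
      _ = (H:ℝ) ^ 3 / L ^ U * (4 / L) := by
          rw [pow_succ]
          field_simp
          ring
      _ ≤ (H:ℝ) ^ 3 / L ^ U * 1 := by
          gcongr
          rw [div_le_one hL0]
          linarith
      _ = _ := mul_one _
  · intro a b c ha haH hb hc hnT hg hpar
    have hbox : (a, b, c) ∈ Bx H := by
      rw [Bx, mem_product, mem_product, mem_Icc, mem_Icc, mem_Icc]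
      have h1 := abs_le.mp hb
      have h2 := abs_le.mp hc
      exact ⟨⟨ha, haH⟩, ⟨h1.1, h1.2⟩, ⟨h2.1, h2.2⟩⟩
    rw [hT, mem_union, mem_union, mem_union, not_or, not_or, not_or] at hnT
    obtain ⟨n1, n2, n3, n4⟩ := hnT
    have m1 : qf a b c ∉ T1 := fun h => n1 (mem_filter.mpr ⟨hbox, h⟩)
    have m2 : y ≤ a := by
      by_contra h
      push Not at h
      exact n2 (mem_filter.mpr ⟨hbox, h⟩)
    have m3 : c ≠ 0 := fun h => n3 (mem_filter.mpr ⟨hbox, h⟩)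
    have m4 : b ^ 2 - 4 * a * c ∉ S ∪ S2 := fun h => n4 (mem_filter.mpr ⟨hbox, m3, h⟩)
    rw [mem_union, not_or] at m4
    set D := b ^ 2 - 4 * a * c with hD
    have hDb : |D| ≤ 5 * (H : ℤ) ^ 2 := by
      have h1 := abs_le.mp hb
      have h2 := abs_le.mp hc
      have hbb : b ^ 2 ≤ (H:ℤ) ^ 2 := sq_le_sq' h1.1 h1.2
      have hac : |a * c| ≤ (H:ℤ) ^ 2 := by
        rw [abs_mul, abs_of_pos ha, sq]
        exact mul_le_mul haH hc (abs_nonneg _) (by omega)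
      have hac' := abs_le.mp hac
      have hb0 := sq_nonneg b
      rw [hD, abs_le]
      constructor <;> nlinarith
    have hDsq : ¬ IsSquare D := by
      rintro ⟨r, hr⟩
      apply m4.2
      rw [hS2, mem_image]
      refine ⟨r.natAbs, ?_, ?_⟩
      · rw [mem_range]
        by_contra hcon
        push Not at hcon
        have h1 : (3 * (H:ℤ) + 1) ≤ |r| := by
          rw [Int.abs_eq_natAbs]; exact_mod_cast hcon
        have h2 : (3 * (H:ℤ) + 1) ^ 2 ≤ |r| ^ 2 := by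
          apply pow_le_pow_left₀ (by positivity) h1
        rw [sq_abs] at h2
        have h3 := (abs_le.mp hDb).2
        nlinarith
      · rw [Int.natAbs_sq, hr, sq]
    obtain ⟨C, hC, hlim⟩ := conv_prod a D ha.ne' hDsq
    refine ⟨C, hC, ?_, ?_⟩
    · rw [← tendsto_add_atTop_iff_nat 1]
      simp only [range_eq]
      exact hlim
    · intro x hx1 hx2
      obtain ⟨K, k1, k2, k3, k4⟩ := hcount H hH3 a b c m2 haH hb hc x hx1 hx2
      have ha0r : (0:ℝ) < a := by exact_mod_cast ha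
      have hfull := (hT1 (qf a b c) (qf_natDegree a b c ha.ne')
        (by rw [qf_leadingCoeff a b c ha.ne']; exact ha)
        (fun i => by
          rw [qf_coeff]
          split_ifs
          · exact hc
          · exact hb
          · rw [abs_of_pos ha]; exact haH
          · simp) m1 K k2 k3).2 (fun p hp _ => no_fixed a b c hg hpar p hp)
      rw [piF_eq a b c x K k1]
      rw [← lF_eq] at k4
      set z := ⌊L ^ E⌋₊ with hz
      have hz3 : L ^ 3 ≤ z := by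
        have h1 : L ^ E < z + 1 := Nat.lt_floor_add_one _
        have h2 : L ^ 4 ≤ L ^ E := hLmono _ _ (by omega)
        have h3 : L ^ 3 + 1 ≤ L ^ 4 := by
          have h4 : L ^ 4 = L * L ^ 3 := by ring
          have h5 := hLp 3
          nlinarith
        linarith
      have hconst := const_close a b c H z L C rfl (by linarith) ha haH hz3 hg hpar
        (hS D hDsq hDb m4.1) hC hlim
      have hlx : 0 < Real.log x := by
        have h1 : (1:ℝ) < H := by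
          by_contra hcon
          push Not at hcon
          have h2 : L ≤ 0 := Real.log_nonpos hH0'.le hcon
          linarith
        apply Real.log_pos
        calc (1:ℝ) < (H:ℝ) ^ (1 + ε) := Real.one_lt_rpow h1 (by linarith)
          _ ≤ x := hx1
      set G : ℝ := ∏ p ∈ (Nat.primeFactors (Int.gcd a b)).filter (fun p : ℕ => 2 < p),
        ((p : ℝ) / ((p : ℝ) - 1)) with hG
      have hG0 : 0 ≤ G := by
        rw [hG]
        refine prod_nonneg fun p hp => ?_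
        rw [mem_filter] at hp
        have : (2:ℝ) < p := by exact_mod_cast hp.2
        have h2 : (0:ℝ) < (p:ℝ) - 1 := by linarith
        positivity
      set e2 : ℝ := if Even (a + b) then (2 : ℝ) else 1 with he2
      have he20 : 0 ≤ e2 := by rw [he2]; split_ifs <;> norm_num
      have hmt : mainTerm a b C x = (e2 * C * G) * (Real.sqrt x / (Real.sqrt a * Real.log x)) := by
        unfold mainTerm
        rw [← hG, ← he2]
        have : 0 < Real.sqrt (a:ℝ) := Real.sqrt_pos.mpr ha0r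
        field_simp
      rw [hmt]
      obtain ⟨-, hSSs⟩ := Pool.Agent.H300R2.FB.lF_bounds (qf a b c) K
      have hlF0 := (Pool.Agent.H300R2.FB.lF_bounds (qf a b c) K).1
      have hSS0 : 0 ≤ SS z (qf a b c) := by
        unfold SS
        refine prod_nonneg fun p hp => ?_
        rw [mem_filter] at hp
        exact (Pool.Agent.H202R2.FB.factor_bd (qf a b c) hp.2).1
      refine combine (pv (qf a b c) K) (SS z (qf a b c)) (e2 * C * G) (lF (qf a b c) K)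
        (Real.sqrt x / (Real.sqrt a * Real.log x)) L |C0| (by linarith) hLC0 (by positivity)
        (by positivity) hlF0 ?_ ?_ hconst
      · refine hfull.trans ?_
        apply div_le_div_of_nonneg_left (mul_nonneg hSS0 hlF0) (hLp0 _) (hLmono _ _ (by omega))
      · refine k4.trans ?_
        gcongr
        exact le_abs_self _

end Pool.Agent.H300R2.EC
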