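import Pool.Agent.H300R2.EC.Defs

/-!
Statements to be proved (never import this file).
-/

namespace Pool.Agent.H300R2.EC

open Finset Polynomial Filter
open Pool.Agent.H300R2.BH

/-- X1 -/
theorem jac_sum (m : ℤ) (hm : ¬ IsSquare m) (N : ℕ) :
    |∑ n ∈ (Icc 1 N).filter (fun n : ℕ => Odd n), (jacobiSym m n : ℝ)| ≤ 4 * |(m : ℝ)| := by
  sorry

/-- X2 -/
theorem large_sieve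
    (jac_sum : ∀ m : ℤ, ¬ IsSquare m → ∀ N : ℕ,
      |∑ n ∈ (Icc 1 N).filter (fun n : ℕ => Odd n), (jacobiSym m n : ℝ)| ≤ 4 * |(m : ℝ)|)
    (X N : ℕ) (a : ℕ → ℝ) :
    ∑ D ∈ Dset X, (∑ n ∈ (Icc 1 N).filter (fun n : ℕ => Odd n), a n * (jacobiSym D n : ℝ)) ^ 2 ≤
      (N * Real.sqrt X + 8 * (X : ℝ) ^ 3) * ∑ n ∈ (Icc 1 N).filter (fun n : ℕ => Odd n), a n ^ 2 := by
  sorry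

/-- X3 -/
theorem moment
    (large_sieve : ∀ (X N : ℕ) (a : ℕ → ℝ),
      ∑ D ∈ Dset X, (∑ n ∈ (Icc 1 N).filter (fun n : ℕ => Odd n),
        a n * (jacobiSym D n : ℝ)) ^ 2 ≤
      (N * Real.sqrt X + 8 * (X : ℝ) ^ 3) * ∑ n ∈ (Icc 1 N).filter (fun n : ℕ => Odd n), a n ^ 2)
    (X P k : ℕ) (hP : 1 ≤ P) (hk : 1 ≤ k) :
    ∑ D ∈ Dset X, (Sd D P (2 * P)) ^ (2 * k) ≤
      (k.factorial : ℝ) * (2 ^ k * Real.sqrt X + 8 * (X : ℝ) ^ 3 / (P : ℝ) ^ k) := by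
  sorry

/-- X4 -/
theorem exc_total
    (moment : ∀ (X P k : ℕ), 1 ≤ P → 1 ≤ k → ∑ D ∈ Dset X, (Sd D P (2 * P)) ^ (2 * k) ≤
      (k.factorial : ℝ) * (2 ^ k * Real.sqrt X + 8 * (X : ℝ) ^ 3 / (P : ℝ) ^ k))
    (V : ℕ) : ∃ E0 : ℕ, ∀ E : ℕ, E0 ≤ E → ∃ H0 : ℕ, ∀ H : ℕ, H0 ≤ H →
    ((Exc V E H).card : ℝ) ≤ (H : ℝ) ^ (3 / 2 : ℝ) := by
  sorry

/-- X5 -/
theorem sw_tail (V W : ℕ) : ∃ P0 : ℕ, ∀ P : ℕ, P0 ≤ P → ∀ Q : ℕ, P ≤ Q → Q ≤ 2 * P → ∀ D : ℤ,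
    ¬ IsSquare D → 4 * |(D : ℝ)| ≤ Real.log P ^ W → |Sd D P Q| ≤ 1 / Real.log P ^ V := by
  sorry

/-- X6 -/
theorem good_D
    (exc_total : ∀ V : ℕ, ∃ E0 : ℕ, ∀ E : ℕ, E0 ≤ E → ∃ H0 : ℕ, ∀ H : ℕ, H0 ≤ H →
      ((Exc V E H).card : ℝ) ≤ (H : ℝ) ^ (3 / 2 : ℝ))
    (sw_tail : ∀ V W : ℕ, ∃ P0 : ℕ, ∀ P : ℕ, P0 ≤ P → ∀ Q : ℕ, P ≤ Q → Q ≤ 2 * P → ∀ D : ℤ,
      ¬ IsSquare D → 4 * |(D : ℝ)| ≤ Real.log P ^ W → |Sd D P Q| ≤ 1 / Real.log P ^ V)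
    (V : ℕ) : ∃ E0 : ℕ, ∀ E : ℕ, E0 ≤ E → ∃ H0 : ℕ, ∀ H : ℕ, H0 ≤ H → ∃ S : Finset ℤ,
    (S.card : ℝ) ≤ (H : ℝ) ^ (3 / 2 : ℝ) ∧ ∀ D : ℤ, ¬ IsSquare D → |D| ≤ 5 * (H : ℤ) ^ 2 → D ∉ S →
    ∀ n : ℕ, |Sd D ⌊Real.log H ^ E⌋₊ (⌊Real.log H ^ E⌋₊ * 2 ^ n)| ≤ 1 / Real.log H ^ V := by
  sorry

/-- X7 -/
theorem conv_prod
    (sw_tail : ∀ V W : ℕ, ∃ P0 : ℕ, ∀ P : ℕ, P0 ≤ P → ∀ Q : ℕ, P ≤ Q → Q ≤ 2 * P → ∀ D : ℤ,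
      ¬ IsSquare D → 4 * |(D : ℝ)| ≤ Real.log P ^ W → |Sd D P Q| ≤ 1 / Real.log P ^ V)
    (a D : ℤ) (ha : a ≠ 0) (hD : ¬ IsSquare D) :
    ∃ C : ℝ, 0 < C ∧ Tendsto (fun N : ℕ => Pd a D 0 N) atTop (nhds C) := by
  sorry

/-- X8 -/
theorem tail_prod (a D : ℤ) (z N : ℕ) (w η : ℝ) (hz : 10 ≤ z)
    (hw : (((Ioc z N).filter (fun p : ℕ => p.Prime ∧ (p : ℤ) ∣ a)).card : ℝ) ≤ w)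
    (hη : |Sd D z N| ≤ η) (hs : η + (w + 8) / z ≤ 1 / 2) :
    |Pd a D z N - 1| ≤ 2 * (η + (w + 8) / z) := by
  sorry

/-- X9 -/
theorem triples (ε : ℝ) (hε : 0 < ε) : ∃ C : ℝ, ∀ H : ℕ, 1 ≤ H → ∀ S : Finset ℤ,
    ((((Icc (1 : ℤ) H) ×ˢ ((Icc (-(H : ℤ)) H) ×ˢ (Icc (-(H : ℤ)) H))).filter
      (fun t : ℤ × ℤ × ℤ => t.2.2 ≠ 0 ∧ t.2.1 ^ 2 - 4 * t.1 * t.2.2 ∈ S)).card : ℝ) ≤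
      C * S.card * H * (H : ℝ) ^ ε := by
  sorry

/-- X10 -/
theorem SS_quad (a b c : ℤ) (z : ℕ) (hz : 2 ≤ z) (ha : a ≠ 0)
    (h1 : ∀ p : ℕ, p.Prime → ¬ ((p : ℤ) ∣ a ∧ (p : ℤ) ∣ b ∧ (p : ℤ) ∣ c))
    (h2 : ¬ ((2 : ℤ) ∣ a + b ∧ (2 : ℤ) ∣ c)) :
    SS z (C a * X ^ 2 + C b * X + C c) =
      (if (2 : ℤ) ∣ a + b then 2 else 1) * Pg a b 0 z * Pd a (b ^ 2 - 4 * a * c) 0 z := by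
  sorry

/-- X11: the counting function in the form of the problem. For `f = a m² + b m + c` with
`a ≥ H / (log H)^U`, the `m ≥ 1` with `f(m) < x` are `1, ..., K` with `K` close to `√(x/a)`, and
`∑ 1 / log f(m)` is `√x / (√a log x) (1 + O(1 / log H))`. -/
theorem count_form (ε : ℝ) (hε : 0 < ε) : ∃ C0 : ℝ, ∀ U B : ℕ, ∃ B' H0 : ℕ, ∀ H : ℕ, H0 ≤ H →
    ∀ a b c : ℤ, (H : ℝ) / Real.log H ^ U ≤ a → a ≤ H → |b| ≤ H → |c| ≤ H → ∀ x : ℝ,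
    (H : ℝ) ^ (1 + ε) ≤ x → x * Real.log H ^ B' ≤ (H : ℝ) ^ 3 → ∃ K : ℕ,
    (∀ m : ℕ, 1 ≤ m → (((a * (m : ℤ) ^ 2 + b * m + c : ℤ) : ℝ) < x ↔ m ≤ K)) ∧
    (H : ℝ) ^ (ε / 3) ≤ K ∧ (K : ℝ) * Real.log H ^ B ≤ H ∧
    |∑ m ∈ (Icc 1 K).filter (fun m : ℕ => 2 ≤ a * (m : ℤ) ^ 2 + b * m + c),
      1 / Real.log ((a * (m : ℤ) ^ 2 + b * m + c : ℤ) : ℝ) - Real.sqrt x / (Real.sqrt a * Real.log x)| ≤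
      C0 / Real.log H * (Real.sqrt x / (Real.sqrt a * Real.log x)) := by
  sorry

end Pool.Agent.H300R2.EC
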